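import Pool.Agent.U574.CMA.E

/-!
# MP_8f0dee_an: the local complex Monge-Ampere flow does not exist from data with a positive Lelong number

The answer to Q1 is negative. Suppose `u₀ ≤ γ log |z - a| + C` near a point `a` of `Ω`, with `γ > 0`, that
is, `u₀` has a positive Lelong number at `a`. A solution with condition 4 is bounded above, so by dominated
convergence and the submean inequality it lies below `(γ/2) log(|z - a|² + δ) + C + ε` on a small closed
ball for small positive times, for every `δ > 0`. The functions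
`(γ/2 - n t) log(|z - a|² + δ) + C₁ + C₂ t` are supersolutions of the flow on that ball with constants
`C₁`, `C₂` that do not depend on `δ`, and comparison gives
`u(a, t) ≤ (γ/2 - n t) log δ + C₁ + C₂ t + ...` for all `δ > 0` and a fixed small `t > 0`: this is
impossible as `δ → 0`, since `u(a, t)` is a real number.

For every dimension `n ≥ 1` and every `T > 0` the unit ball, `u₀ = log |z|` and `φ = 0` are data of the
problem to which this applies.
-/

set_option autoImplicit false

open Metric Set Filter Topology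
open scoped ContDiff

namespace Pool.Agent.Results.MP_8f0dee_an.PositiveLelong
open Pool.Agent.H805R2 Pool.Agent.U574.CMA

/-- For every `n ≥ 1` and `T > 0` the unit ball, `u₀ = log |z|` and `φ = 0` are admissible data for which
the flow has no solution; more generally there is no solution whenever `u₀` has a positive Lelong number at
some point of `Ω`. -/
theorem result (n : ℕ) (hn : 0 < n) (T : ℝ) (hT : 0 < T) :
    (IsData (ball (0 : Cn n) 1) T (fun z => ENNReal.log ‖z‖ₑ) (fun _ _ => 0) ∧
      ¬ ∃ u, IsSolution (ball (0 : Cn n) 1) T (fun z => ENNReal.log ‖z‖ₑ) (fun _ _ => 0) u) ∧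
    ∀ (Ω : Set (Cn n)) (u₀ : Cn n → EReal) (φ : Cn n → ℝ → ℝ), IsData Ω T u₀ φ →
      (∃ a ∈ Ω, ∃ γ C : ℝ, 0 < γ ∧
        ∀ᶠ z in 𝓝 a, u₀ z ≤ (γ : EReal) * ENNReal.log ‖z - a‖ₑ + (C : EReal)) →
      ¬ ∃ u, IsSolution Ω T u₀ φ u := by
  have hgen : ∀ (Ω : Set (Cn n)) (u₀ : Cn n → EReal) (φ : Cn n → ℝ → ℝ), IsData Ω T u₀ φ →
      (∃ a ∈ Ω, ∃ γ C : ℝ, 0 < γ ∧
        ∀ᶠ z in 𝓝 a, u₀ z ≤ (γ : EReal) * ENNReal.log ‖z - a‖ₑ + (C : EReal)) →
      ¬ ∃ u, IsSolution Ω T u₀ φ u := by
    rintro Ω u₀ φ hD ⟨a, ha, γ, C, hγ, h⟩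
    exact no_solution hn hT hD ha hγ h
  refine ⟨⟨ball_data T, hgen _ _ _ (ball_data T) ⟨0, mem_ball_self one_pos, 1, 0, one_pos, ?_⟩⟩,
    hgen⟩
  apply Eventually.of_forall
  intro z
  simp

end Pool.Agent.Results.MP_8f0dee_an.PositiveLelong
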